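import Mathlib
import Pool.Agent.X184.PW.M

/-!
# The maximal weighted density of primitive sets decreases in the exponent

For `0 ≤ σ ≤ 1` let `F(σ, n)` be the maximum of `∑_{a ∈ A} a ^ (-σ) / ∑_{m ≤ n} m ^ (-σ)` over the
primitive sets `A ⊆ {1, …, n}`. We prove, for all `0 ≤ σ₁ < σ₂ ≤ 1`, that `F(σ₁, n) > F(σ₂, n)` for
all large `n`; the difference even stays above a positive constant. Moreover `F(σ, n)` converges for
`0 ≤ σ < 1`, and the limit is strictly decreasing in `σ`.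

Method. (1) *The limit.* Write `m = s r` with `s` composed of primes `≤ P` and `r` of primes `> P`. If only
the divisibilities with equal `r` are kept, the maximum is an explicit sum over `r`, asymptotic to
`C_P n ^ (1 - σ)`; conversely, the elements `≤ n / P` of an optimal set of this kind can be omitted, and
then the rest is primitive. So `F(σ, n)` is a Cauchy sequence.
(2) *Monotonicity.* Let `A` be optimal for `σ₂`. By Abel summation, `F(σ₂, n)` is a mean of the densities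
of `A ∩ [1, t]` for `σ₁`, `t ≤ n`, and they are at most `F(σ₁, t)`. (3) *Strictness.* If
`F(σ₂, n) ≥ F(σ₁, n) - o(1)`, there are large `t` such that `A ∩ [1, t]` and all the `A ∩ [1, t / q]`,
for the primes `q` in a fixed interval `(P, Q]`, are nearly optimal for `σ₁`. A nearly optimal set
contains nearly all the integers in `(t / 2, t]` without prime factors `≤ P`, since these could be added
after omitting the elements `≤ t / P`. So `A` would contain many integers `m` in `(t / 2, t]` with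
a prime factor `q ∈ (P, Q]` together with `m / q`. This contradicts primitivity.
-/

set_option autoImplicit false

namespace Pool.Agent.Results.MP_def192_nt.PowerWeightings

open Finset Filter Topology

/-- no element of `A` divides a different element of `A` -/
def IsPrimitive (A : Set ℕ) : Prop := ∀ a ∈ A, ∀ b ∈ A, a ∣ b → a = b

/-- `S(f, A) = ∑_{a ∈ A} f(a)` -/
noncomputable def total (f : ℕ → ℝ) (A : Finset ℕ) : ℝ := ∑ a ∈ A, f a

/-- `δ(f, A, n) = S(f, A) / S(f, [n])` -/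
noncomputable def density (f : ℕ → ℝ) (A : Finset ℕ) (n : ℕ) : ℝ :=
  total f A / total f (Icc 1 n)

/-- `F(f, n)`, the maximum of `δ(f, A, n)` over the primitive sets `A ⊆ [n]` -/
noncomputable def F (f : ℕ → ℝ) (n : ℕ) : ℝ :=
  sSup {d : ℝ | ∃ A : Finset ℕ, A ⊆ Icc 1 n ∧ IsPrimitive (A : Set ℕ) ∧ d = density f A n}

/-- `f_σ(m) = m ^ (-σ)` -/
noncomputable def fσ (σ : ℝ) (m : ℕ) : ℝ := (m : ℝ) ^ (-σ)

/-- `F(f_σ, n)` is a maximum, and the same as in the helper files -/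
theorem F_eq (σ : ℝ) {n : ℕ} (hn : 1 ≤ n) :
    IsGreatest {d : ℝ | ∃ A : Finset ℕ, A ⊆ Icc 1 n ∧ IsPrimitive (A : Set ℕ) ∧
      d = density (fσ σ) A n} (F (fσ σ) n) ∧ F (fσ σ) n = Pool.Agent.X184.PW.F σ n := by
  have h : IsGreatest {d : ℝ | ∃ A : Finset ℕ, A ⊆ Icc 1 n ∧ IsPrimitive (A : Set ℕ) ∧
      d = density (fσ σ) A n} (Pool.Agent.X184.PW.F σ n) := by
    constructor
    · obtain ⟨A, h1, h2, h3⟩ := Pool.Agent.X184.PW.exists_opt σ (Icc 1 n)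
      refine ⟨A, h1, fun a ha b hb => h2 a ha b hb, ?_⟩
      unfold Pool.Agent.X184.PW.F
      rw [← h3]
      rfl
    · rintro d ⟨A, h1, h2, rfl⟩
      have h3 := Pool.Agent.X184.PW.le_G (a := σ) h1 (fun a ha b hb => h2 a ha b hb)
      exact div_le_div_of_nonneg_right h3 (Pool.Agent.X184.PW.T_nonneg σ n)
  have e : F (fσ σ) n = Pool.Agent.X184.PW.F σ n := h.csSup_eq
  exact ⟨e ▸ h, e⟩

/-- **The maximal density of primitive sets is eventually strictly decreasing in the exponent.**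
(1) For `0 ≤ σ₁ < σ₂ ≤ 1` there is `δ > 0` with `F(f_{σ₂}, n) + δ ≤ F(f_{σ₁}, n)` for all large `n`.
(2) For `0 ≤ σ < 1` the limit `L(σ)` of `F(f_σ, n)` exists, `L` is strictly decreasing on `[0, 1)` and
`L(0) = 1/2`. -/
theorem result :
    (∀ σ₁ σ₂ : ℝ, 0 ≤ σ₁ → σ₁ < σ₂ → σ₂ ≤ 1 → ∃ δ : ℝ, 0 < δ ∧ ∃ n₀ : ℕ, ∀ n : ℕ, n₀ < n →
      F (fσ σ₂) n + δ ≤ F (fσ σ₁) n) ∧
    (∀ σ₁ σ₂ : ℝ, 0 ≤ σ₁ → σ₁ < σ₂ → σ₂ ≤ 1 → ∃ n₀ : ℕ, ∀ n : ℕ, n₀ < n →
      F (fσ σ₂) n < F (fσ σ₁) n) ∧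
    ∃ L : ℝ → ℝ, L 0 = 1 / 2 ∧ StrictAntiOn L (Set.Ico 0 1) ∧
      ∀ σ : ℝ, 0 ≤ σ → σ < 1 → Tendsto (F (fσ σ)) atTop (𝓝 (L σ)) := by
  have h1 : ∀ σ₁ σ₂ : ℝ, 0 ≤ σ₁ → σ₁ < σ₂ → σ₂ ≤ 1 → ∃ δ : ℝ, 0 < δ ∧ ∃ n₀ : ℕ, ∀ n : ℕ, n₀ < n →
      F (fσ σ₂) n + δ ≤ F (fσ σ₁) n := by
    intro σ₁ σ₂ h1 h2 h3
    obtain ⟨δ, hδ, h⟩ := Pool.Agent.X184.PW.main h1 h2 h3
    obtain ⟨n₀, hn₀⟩ := eventually_atTop.1 h
    refine ⟨δ, hδ, n₀, fun n hn => ?_⟩
    rw [(F_eq σ₁ (by omega : 1 ≤ n)).2, (F_eq σ₂ (by omega : 1 ≤ n)).2]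
    exact hn₀ n hn.le
  have h2 : ∀ σ : ℝ, 0 ≤ σ → σ < 1 → ∃ L : ℝ, Tendsto (F (fσ σ)) atTop (𝓝 L) := by
    intro σ h0 h1
    obtain ⟨L, hL⟩ := Pool.Agent.X184.PW.exists_limit h0 h1
    refine ⟨L, hL.congr' ?_⟩
    filter_upwards [eventually_ge_atTop 1] with n hn
    exact (F_eq σ hn).2.symm
  refine ⟨h1, fun σ₁ σ₂ a1 a2 a3 => ?_, ?_⟩
  · obtain ⟨δ, hδ, n₀, h⟩ := h1 σ₁ σ₂ a1 a2 a3
    exact ⟨n₀, fun n hn => by have := h n hn; linarith⟩
  · classical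
    choose L hL using h2
    refine ⟨fun σ => if h : 0 ≤ σ ∧ σ < 1 then L σ h.1 h.2 else 0, ?_, ?_, ?_⟩
    · have e : (0 : ℝ) ≤ 0 ∧ (0 : ℝ) < 1 := ⟨le_rfl, one_pos⟩
      simp only [dif_pos e]
      refine tendsto_nhds_unique (hL 0 e.1 e.2) (Pool.Agent.X184.PW.tendsto_F_zero.congr' ?_)
      filter_upwards [eventually_ge_atTop 1] with n hn
      exact (F_eq 0 hn).2.symm
    · intro x hx y hy hxy
      have ex : 0 ≤ x ∧ x < 1 := hx
      have ey : 0 ≤ y ∧ y < 1 := hy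
      simp only [dif_pos ex, dif_pos ey]
      obtain ⟨δ, hδ, n₀, h⟩ := h1 x y hx.1 hxy hy.2.le
      have h3 : L y ey.1 ey.2 + δ ≤ L x ex.1 ex.2 := by
        refine le_of_tendsto_of_tendsto ((hL y ey.1 ey.2).add_const δ) (hL x ex.1 ex.2) ?_
        filter_upwards [eventually_gt_atTop n₀] with n hn
        exact h n hn
      linarith
    · intro σ h0 h1'
      have e : 0 ≤ σ ∧ σ < 1 := ⟨h0, h1'⟩
      simp only [dif_pos e]
      exact hL σ h0 h1'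

end Pool.Agent.Results.MP_def192_nt.PowerWeightings
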